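import Pool.Agent.Q42.SH.CStarOrb
import Pool.Agent.Q42.SH.Mob

/-!
# Möbius disjointness up to `δ` at all but `1/δ²` points of every orbit, for every C*-automorphism

There is one set `𝓔` of scales of logarithmic density zero such that for EVERY automorphism `α` of a
C*-algebra (exact or not, of any entropy), all elements `x` and the sums
`S_θ = ∑_{n ≤ N} μ(n) e(θ n) α^n(x)`, `N` large outside `𝓔`, the positive elements `α^{-h}(S_θ^* S_θ)`,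
`h < H`, have a sum of norm at most `(1 + ε) N² ‖x‖²`.  So for every bounded functional the conclusion of
the conjecture holds up to `δ` for all but `(1 + ε) ‖x‖² / δ²` of the elements `x, α^{-1} x, α^{-2} x, ...`.
-/

set_option autoImplicit false

open Finset Filter

namespace Pool.Agent.Results.MP_7a8f48_an.OrbitOfSums

/-- `e(x) = exp(2 π i x)` -/
noncomputable def e (x : ℝ) : ℂ := Complex.exp (2 * Real.pi * x * Complex.I)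

open Classical in
/-- logarithmic density zero -/
def LogDensityZero (E : Set ℕ) : Prop :=
  Tendsto (fun X : ℕ => (∑ N ∈ Icc 1 X, if N ∈ E then (1 : ℝ) / N else 0) / Real.log X) atTop (nhds 0)

/-- the Liouville function -/
noncomputable def liouville (n : ℕ) : ℂ := (-1) ^ ArithmeticFunction.cardFactors n

/-- the Möbius function -/
noncomputable def moebius (n : ℕ) : ℂ := ((ArithmeticFunction.moebius n : ℤ) : ℂ)

/-- the sum of `u(n) e(θ n) α^n(x)` over `n ≤ N` -/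
noncomputable def S {A : Type*} [NonUnitalCStarAlgebra A] (u : ℕ → ℂ) (α : A ≃⋆ₐ[ℂ] A) (x : A) (θ : ℝ)
    (N : ℕ) : A := ∑ n ∈ Icc 1 N, (u n * e (θ * n)) • (⇑α)^[n] x

lemma bes (u : ℕ → ℂ) (hu : ∀ n, ‖u n‖ ≤ 1) (E : Set ℕ)
    (h : ∀ a c : ℕ, a ≠ c → ∀ κ : ℝ, 0 < κ → ∃ N₀ : ℕ, ∀ N : ℕ, N₀ ≤ N → N ∉ E → ∀ γ : ℝ,
      ‖∑ n ∈ Icc 1 N, u (n + a) * (starRingEnd ℂ) (u (n + c)) *
        Pool.Agent.Helper602.MK.ee (γ * n)‖ ≤ κ * N) (H : ℕ) (ε : ℝ) (hε : 0 < ε) :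
    ∃ N₀ : ℕ, ∀ N : ℕ, N₀ ≤ N → N ∉ E → ∀ (ξ : ℕ → ℂ) (θ : ℕ → ℝ),
      ∑ a ∈ range H, ‖∑ n ∈ Icc 1 N, u (n + a) * ξ n *
        Pool.Agent.Helper602.MK.ee (θ a * n)‖ ^ 2 ≤ (1 + ε) * N * ∑ n ∈ Icc 1 N, ‖ξ n‖ ^ 2 := by
  have hp : (0 : ℝ) < ε / (H + 1) := by positivity
  obtain ⟨N₀, h1⟩ := Pool.Agent.Q42.SH.max_pairs (range H) (fun a c N => N ∉ E → ∀ γ : ℝ,
      ‖∑ n ∈ Icc 1 N, u (n + a) * (starRingEnd ℂ) (u (n + c)) *
        Pool.Agent.Helper602.MK.ee (γ * n)‖ ≤ ε / (H + 1) * N)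
    (fun a _ c _ hac => h a c hac (ε / (H + 1)) hp)
  refine ⟨N₀, fun N hN hNE ξ θ => ?_⟩
  refine Pool.Agent.Q42.SH.bes_one (range H) (fun a n => u (n + a)) (fun a n => hu _) N
    (ε / (H + 1)) ε hp.le ?_ (fun a ha c hc hac γ => h1 N hN a ha c hc hac hNE γ) ξ θ
  rw [card_range]
  calc (H : ℝ) * (ε / (H + 1)) ≤ (H + 1) * (ε / (H + 1)) := mul_le_mul_of_nonneg_right (by linarith) hp.le
    _ = ε := by field_simp

/-- the element `α^{-h}(S^* S)`, `S` the sum of `u(n) e(θ n) α^n(x)` over `n ≤ N` -/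
noncomputable def pos {A : Type*} [NonUnitalCStarAlgebra A] (u : ℕ → ℂ) (α : A ≃⋆ₐ[ℂ] A) (x : A) (N : ℕ)
    (θ : ℝ) (h : ℕ) : A := (⇑α.symm)^[h] (star (S u α x θ N) * S u α x θ N)

/-- for all real `θ_0, θ_1, ...` the norm of the sum of `α^{-h}(S_h^* S_h)` over `h < H`, where
`S_h = ∑_{n ≤ N} u(n) e(θ_h n) α^n(x)`, is at most `(1 + ε) N² ‖x‖²` -/
def NormBound {A : Type*} [NonUnitalCStarAlgebra A] (u : ℕ → ℂ) (H : ℕ) (ε : ℝ) (N : ℕ)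
    (α : A ≃⋆ₐ[ℂ] A) (x : A) : Prop :=
  ∀ θ : ℕ → ℝ, ‖∑ h ∈ range H, pos u α x N (θ h) h‖ ≤ (1 + ε) * N ^ 2 * ‖x‖ ^ 2

/-- `|ρ(α^{-h}(∑_{n ≤ N} u(n) e(θ n) α^n(x)))| ≥ δ N` for some real `θ` -/
def Large {A : Type*} [NonUnitalCStarAlgebra A] (u : ℕ → ℂ) (N : ℕ) (α : A ≃⋆ₐ[ℂ] A) (x : A)
    (ρ : A →L[ℂ] ℂ) (δ : ℝ) (h : ℕ) : Prop := ∃ θ : ℝ, δ * N ≤ ‖ρ ((⇑α.symm)^[h] (S u α x θ N))‖

open Classical in
/-- for every bounded functional `ρ` with `‖ρ‖ ≤ 1` (for instance a state) and every `δ > 0` the number of the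
`h < H` such that `|ρ(α^{-h}(∑_{n ≤ N} u(n) e(θ n) α^n(x)))| ≥ δ N` for some real `θ` is at most
`(1 + ε) ‖x‖² / δ²` -/
def FewLarge {A : Type*} [NonUnitalCStarAlgebra A] (u : ℕ → ℂ) (H : ℕ) (ε : ℝ) (N : ℕ)
    (α : A ≃⋆ₐ[ℂ] A) (x : A) : Prop :=
  ∀ ρ : A →L[ℂ] ℂ, ‖ρ‖ ≤ 1 → ∀ δ : ℝ, 0 < δ →
    (((range H).filter (Large u N α x ρ δ)).card : ℝ) ≤ (1 + ε) * ‖x‖ ^ 2 / δ ^ 2

/-- **Theorem.** There is one set `𝓔` of logarithmic density zero such that for all `H`, `ε > 0` and all large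
`N` outside `𝓔`, for `u` the Möbius or the Liouville function, every C*-algebra `A` (unital or not), every
`*`-automorphism `α` of `A` and every `x ∈ A`:
1. for all real `θ_0, θ_1, ...`, with `S_h = ∑_{n ≤ N} u(n) e(θ_h n) α^n(x)`:
   `‖∑_{h < H} α^{-h}(S_h^* S_h)‖ ≤ (1 + ε) N² ‖x‖²`;
2. for every bounded functional `ρ` with `‖ρ‖ ≤ 1` (for instance a state) and every `δ > 0` the number of the
   `h < H` such that `|ρ(α^{-h}(∑_{n ≤ N} u(n) e(θ n) α^n(x)))| ≥ δ N` for some real `θ` is at most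
   `(1 + ε) ‖x‖² / δ²`. -/
theorem result.{v} : ∃ 𝓔 : Set ℕ, LogDensityZero 𝓔 ∧ ∀ (H : ℕ) (ε : ℝ), 0 < ε → ∃ N₀ : ℕ, ∀ N : ℕ, N₀ ≤ N →
    N ∉ 𝓔 → ∀ u : ℕ → ℂ, u = moebius ∨ u = liouville →
      ∀ (A : Type v) [NonUnitalCStarAlgebra A] (α : A ≃⋆ₐ[ℂ] A) (x : A),
        NormBound u H ε N α x ∧ FewLarge u H ε N α x := by
  obtain ⟨E₁, hE₁, h1⟩ := Pool.Agent.Q42.SH.mob_two
  obtain ⟨E₂, hE₂, h2⟩ := Pool.Agent.Q42.SH.two_LZ (-1) (by simp) (by norm_num)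
  have hl : ∀ n, ‖liouville n‖ ≤ 1 := by
    intro n
    unfold liouville
    simp
  refine ⟨E₁ ∪ E₂, Pool.Agent.Y842.EL.LZ_union hE₁ hE₂, fun H ε hε => ?_⟩
  obtain ⟨N₁, h3⟩ := bes moebius Pool.Agent.Q42.SH.muC_le E₁ h1 H (ε / 2) (by positivity)
  obtain ⟨N₂, h4⟩ := bes liouville hl E₂ (fun a c hac κ hκ => by
    obtain ⟨N₀, h5⟩ := h2 a c hac κ hκ
    refine ⟨N₀, fun N hN hNE γ => ?_⟩
    have h6 := h5 N hN hNE γ N le_rfl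
    refine le_trans (le_of_eq ?_) h6
    congr 1
    refine sum_congr rfl fun n _ => ?_
    unfold liouville
    rw [map_pow]) H (ε / 2) (by positivity)
  obtain ⟨N₃, hN₃⟩ := exists_nat_ge (4 * (H : ℝ) ^ 2 * 2 / ε)
  refine ⟨N₁ + N₂ + N₃ + 1, fun N hN hNE u hu A _ α x => ?_⟩
  have hu1 : ∀ n, ‖u n‖ ≤ 1 := by
    rcases hu with rfl | rfl
    · exact Pool.Agent.Q42.SH.muC_le
    · exact hl
  have hb : ∀ (ξ : ℕ → ℂ) (θ : ℕ → ℝ), ∑ h ∈ range H, ‖∑ n ∈ Icc 1 N, u (n + h) * ξ n *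
      Pool.Agent.Helper602.MK.ee (θ h * n)‖ ^ 2 ≤ ((1 + ε / 2) * N) * ∑ n ∈ Icc 1 N, ‖ξ n‖ ^ 2 := by
    intro ξ θ
    rcases hu with rfl | rfl
    · exact h3 N (by omega) (fun hh => hNE (Or.inl hh)) ξ θ
    · exact h4 N (by omega) (fun hh => hNE (Or.inr hh)) ξ θ
  have hN0 : (0 : ℝ) < N := by exact_mod_cast (by omega : 0 < N)
  have hN3 : 4 * (H : ℝ) ^ 2 ≤ ε / 2 * N := by
    have : 4 * (H : ℝ) ^ 2 * 2 / ε ≤ N := hN₃.trans (by exact_mod_cast (by omega : N₃ ≤ N))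
    rw [div_le_iff₀ hε] at this
    linarith
  have hfin : (1 + ε / 2) * N * N * ‖x‖ ^ 2 + 4 * H ^ 2 * N * ‖x‖ ^ 2 ≤ (1 + ε) * N ^ 2 * ‖x‖ ^ 2 := by
    have : 4 * (H : ℝ) ^ 2 * (N * ‖x‖ ^ 2) ≤ ε / 2 * N * (N * ‖x‖ ^ 2) :=
      mul_le_mul_of_nonneg_right hN3 (by positivity)
    nlinarith
  refine ⟨fun θ => ?_, fun ρ hρ δ hδ => ?_⟩
  · exact (Pool.Agent.Q42.SH.cstar_orb u hu1 H N _ (by positivity) hb α x θ).trans hfin
  · have h5 := Pool.Agent.Q42.SH.few_pick (range H) (fun h θ => ‖ρ ((⇑α.symm)^[h] (S u α x θ N))‖)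
      (δ * N) ((1 + ε) * N ^ 2 * ‖x‖ ^ 2) (by positivity) (fun θ =>
        (Pool.Agent.Q42.SH.func_orb u hu1 H N _ (by positivity) hb α x θ ρ hρ).trans hfin)
    refine le_trans (le_of_eq ?_) (h5.trans (le_of_eq ?_))
    · congr
    · field_simp

end Pool.Agent.Results.MP_7a8f48_an.OrbitOfSums
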