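import Pool.Agent.Q25.TOrb

/-!
# The Möbius function and the orbits of automorphisms of C*-algebras at the times of a polynomial or of a thin family

For every automorphism `α` of a C*-algebra (exact or not, of any entropy), every bounded functional `ρ` and every
element `u`, the sums of `μ(n) ρ(α^n v)`, `n ≤ M`, have a power of a logarithm of saving for almost all elements
`v = α ^ (m ^ 2) u`, `m ≤ √N` (any polynomial or thin family of times in place of the squares).
The exponential sum bounds for the Möbius function (Davenport's theorem) and the bilinear estimate along families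
of small additive energy are from the starting files (`Pool.Agent.H807R2.Dav`, `Pool.Agent.H373R2.T7`,
`Pool.Agent.TH935.LF1`).
-/

set_option autoImplicit false

namespace Pool.Agent.Results.MP_7a8f48_an.PolynomialTimes

open Finset Polynomial

/-- The additive energy of order `p` of the family `s 1, ..., s x`: the number of the solutions of
`s (m 1) + ... + s (m p) = s (m' 1) + ... + s (m' p)` with all `m i`, `m' i` in `{1, ..., x}`. -/
def energy (p x : ℕ) (s : ℕ → ℤ) : ℕ :=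
  (((Fintype.piFinset fun _ : Fin p => Icc 1 x) ×ˢ (Fintype.piFinset fun _ : Fin p => Icc 1 x)).filter
    (fun q => ∑ i, s (q.1 i) = ∑ i, s (q.2 i))).card

/-- The family `s 1, ..., s x` is contained in `[-B N, B N]` and has nearly minimal energy of order `p`: at most
`log ^ C N * x ^ (2 p) / N`. -/
def Thin (p B C N x : ℕ) (s : ℕ → ℤ) : Prop :=
  (∀ m ∈ Icc 1 x, |s m| ≤ B * N) ∧ (energy p x s : ℝ) * N ≤ Real.log N ^ C * (x : ℝ) ^ (2 * p)

/-- The range `N / log ^ C N ≤ x ^ d ≤ B N`, `|c| ≤ B N` for the values of a polynomial of degree `d`. -/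
def Range (B C N d x : ℕ) (c : ℤ) : Prop :=
  |c| ≤ B * N ∧ (N : ℝ) ≤ Real.log N ^ C * (x : ℝ) ^ d ∧ x ^ d ≤ B * N

/-- The integer power `α ^ k` of the automorphism `α`. -/
def pw {A : Type} [NonUnitalCStarAlgebra A] (α : A ≃⋆ₐ[ℂ] A) (k : ℤ) (u : A) : A :=
  if 0 ≤ k then (⇑α)^[k.toNat] u else (⇑α.symm)^[(-k).toNat] u

/-- The functional `ρ` and the element `v`: all the sums of `ρ (α ^ n v) μ(n)` over the `n ≤ M` in a residue class
modulo `q`, with `M ≤ B N` and `q ≤ log ^ T N`, are at most `N / log ^ U N`. -/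
def Disjoint (B T U N : ℕ) {A : Type} [NonUnitalCStarAlgebra A] (α : A ≃⋆ₐ[ℂ] A) (ρ : A →L[ℂ] ℂ) (v : A) : Prop :=
  ∀ q r : ℤ, 1 ≤ q → (q : ℝ) ≤ Real.log N ^ T → ∀ M : ℕ, M ≤ B * N →
    ‖∑ n ∈ (Icc 1 M).filter (fun n : ℕ => (n : ℤ) ≡ r [ZMOD q]),
      ρ ((⇑α)^[n] v) * (ArithmeticFunction.moebius n : ℂ)‖ ≤ N / Real.log N ^ U

open Classical in
/-- For every C*-algebra `A` (unital or not, exact or not), every automorphism `α` (of any entropy) and at most
`log ^ T N` pairs of a bounded functional `ρ l` (for instance a state) and an element `u l` with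
`‖ρ l‖ ‖u l‖ ≤ log ^ T N`: the elements `α ^ (s m) (u l)` at the times `s m` (positive or negative), `m ≤ x`, with at
most `x / log ^ U N` exceptional `m`, have the property `Disjoint` for `ρ l`, for all `l`. -/
def AlmostAll (B T U N x : ℕ) (s : ℕ → ℤ) : Prop :=
  ∀ (A : Type) [NonUnitalCStarAlgebra A] (α : A ≃⋆ₐ[ℂ] A) (D : ℕ), (D : ℝ) ≤ Real.log N ^ T →
    ∀ (ρ : Fin D → A →L[ℂ] ℂ) (u : Fin D → A), (∀ l, ‖ρ l‖ * ‖u l‖ ≤ Real.log N ^ T) →
      (((Icc 1 x).filter (fun m => ¬ ∀ l, Disjoint B T U N α (ρ l) (pw α (s m) (u l)))).card : ℝ) ≤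
        x / Real.log N ^ U

variable {A : Type} [NonUnitalCStarAlgebra A]

lemma norm_it (α : A ≃⋆ₐ[ℂ] A) (n : ℕ) (u : A) : ‖(⇑α)^[n] u‖ = ‖u‖ := by
  induction n with
  | zero => rfl
  | succ n ih =>
    rw [Function.iterate_succ_apply']
    rw [← ih]
    exact NonUnitalStarAlgHom.norm_map (α : A →⋆ₙₐ[ℂ] A) α.injective _

lemma norm_pw (α : A ≃⋆ₐ[ℂ] A) (k : ℤ) (u : A) : ‖pw α k u‖ = ‖u‖ := by
  unfold pw
  split_ifs
  · exact norm_it α _ u
  · exact norm_it α.symm _ u

lemma symm_it (α : A ≃⋆ₐ[ℂ] A) (n : ℕ) (u : A) : (⇑α)^[n] ((⇑α.symm)^[n] u) = u := by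
  have h : Function.LeftInverse ⇑α ⇑α.symm := fun x => α.apply_symm_apply x
  exact h.iterate n u

/-- shifting the times by `K`: `α ^ k = α ^ (k + K) α ^ (-K)` -/
lemma pw_shift (α : A ≃⋆ₐ[ℂ] A) (k : ℤ) (K : ℕ) (h : 0 ≤ k + K) (u : A) :
    pw α k u = (⇑α)^[(k + K).toNat] ((⇑α.symm)^[K] u) := by
  unfold pw
  split_ifs with hk
  · have e : (k + K).toNat = k.toNat + K := by omega
    rw [e, Function.iterate_add_apply, symm_it]
  · have e : K = (k + K).toNat + (-k).toNat := by omega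
    conv_rhs => rw [e]
    rw [Function.iterate_add_apply (⇑α.symm)]
    have e2 : (k + ((k + (K : ℤ)).toNat + (-k).toNat : ℕ)).toNat = (k + K).toNat := by omega
    rw [e2, symm_it]

/-- Let `B`, `C`, `T` and `U` be fixed. For all large `N`:

* The members of a family of nearly minimal energy of any fixed order `p` have the property `AlmostAll`.
* So do the numbers `c + P m`, `m ≤ x`, for a non-constant polynomial `P` of degree `d`, where
  `N / log ^ C N ≤ x ^ d ≤ B N` and `|c| ≤ B N`. -/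
theorem result (B C T U : ℕ) :
    (∀ p : ℕ, ∃ N₀ : ℕ, ∀ N : ℕ, N₀ ≤ N → ∀ (x : ℕ) (s : ℕ → ℤ), Thin p B C N x s → AlmostAll B T U N x s) ∧
    (∀ P : ℤ[X], 1 ≤ P.natDegree → ∃ N₀ : ℕ, ∀ N : ℕ, N₀ ≤ N → ∀ (c : ℤ) (x : ℕ), Range B C N P.natDegree x c →
      AlmostAll B T U N x (fun m => c + P.eval (m : ℤ))) := by
  classical
  obtain ⟨hf, hs, _⟩ := Pool.Agent.W93.LM.nice_muC
  have key : ∀ B' : ℕ, B ≤ 2 * B' → ∃ n1 : ℕ, ∀ N : ℕ, n1 ≤ N → ∀ (x : ℕ) (s : ℕ → ℤ),
      (∀ m ∈ Icc 1 x, |s m| ≤ B' * N) →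
      Pool.Agent.Q25.TFam.AllSmall Pool.Agent.H373R2.T7.muC (2 * (2 * B')) (3 * T + 2) U N x
        (fun m => -(s m + ((B' * N : ℕ) : ℤ))) → AlmostAll B T U N x s := by
    intro B' hB
    obtain ⟨n1, h1⟩ := Pool.Agent.Q25.TOrb.orbits Pool.Agent.H373R2.T7.muC (2 * B') T U
    refine ⟨n1, ?_⟩
    intro N hN x s hsN hs A _ α D hD ρ u hF
    refine h1 N hN x (fun m => s m + ((B' * N : ℕ) : ℤ)) ?_ hs D hD
      (fun l n => ρ l ((⇑α)^[n] ((⇑α.symm)^[B' * N] (u l)))) (fun l n => ?_) _ (filter_subset _ _) ?_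
    · intro m hm
      have h3 := abs_le.1 (hsN m hm)
      rw [abs_le]
      push_cast
      constructor <;> nlinarith
    · refine ((ρ l).le_opNorm _).trans ?_
      rw [norm_it α, norm_it α.symm]
      exact hF l
    intro m hm
    rw [mem_filter] at hm
    obtain ⟨hm1, hm2⟩ := hm
    have h0 : 0 ≤ s m + ((B' * N : ℕ) : ℤ) := by
      have h3 := (abs_le.1 (hsN m hm1)).1
      push_cast
      linarith
    unfold Disjoint at hm2
    push Not at hm2
    obtain ⟨l, q, r, hq, hqN, M, hM, hb⟩ := hm2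
    refine ⟨h0, l, q, r, hq, hqN, M, hM.trans (Nat.mul_le_mul_right _ hB), lt_of_lt_of_le hb (le_of_eq ?_)⟩
    congr 1
    apply sum_congr rfl
    intro n _
    rw [pw_shift α (s m) (B' * N) h0 (u l), ← Function.iterate_add_apply]
    rfl
  refine ⟨?_, ?_⟩
  · intro p
    obtain ⟨n1, h1⟩ := key B (by omega)
    obtain ⟨n2, h2⟩ := Pool.Agent.Q25.TFam.fam_small hf hs p (2 * (2 * B)) C (3 * T + 2) U
    refine ⟨n1 + n2, fun N hN x s h => h1 N (by omega) x s h.1 (h2 N (by omega) x _ ?_ ?_)⟩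
    · intro m hm
      have h3 := abs_le.1 (h.1 m hm)
      rw [abs_le]
      push_cast
      constructor <;> nlinarith [mul_nonneg (Int.natCast_nonneg B) (Int.natCast_nonneg N)]
    · have e : (fun m : ℕ => -(s m + ((B * N : ℕ) : ℤ))) = fun m : ℕ => (fun m : ℕ => -s m) m - ((B * N : ℕ) : ℤ) := by
        funext m
        ring
      rw [e, Pool.Agent.Q25.TFam.energy_sub, Pool.Agent.Q25.TFam.energy_neg]
      exact h.2
  · intro P hP
    obtain ⟨A, hA⟩ := Pool.Agent.TH823.Fam.poly_size P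
    obtain ⟨n1, h1⟩ := key (B + A * B) (by nlinarith [Nat.zero_le (A * B)])
    obtain ⟨n2, h2⟩ := Pool.Agent.Q25.TFam.poly_small hf hs (-P) (by rw [natDegree_neg]; exact hP)
      (2 * (2 * (B + A * B))) C (3 * T + 2) U
    refine ⟨n1 + n2 + 3, fun N hN c x h => h1 N (by omega) x _ ?_ ?_⟩
    · intro m hm
      have hx : 1 ≤ x := by
        rw [mem_Icc] at hm
        omega
      refine (abs_add_le _ _).trans ?_
      have e1 := hA x hx m hm
      have e2 : (x : ℤ) ^ P.natDegree ≤ B * N := by exact_mod_cast h.2.2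
      have e3 : (A : ℤ) * (x : ℤ) ^ P.natDegree ≤ A * (B * N) := mul_le_mul_of_nonneg_left e2 (by positivity)
      push_cast
      calc |c| + |P.eval (m : ℤ)| ≤ B * N + A * (B * N) := add_le_add h.1 (e1.trans e3)
        _ = _ := by ring
    · have e : (fun m : ℕ => -(c + P.eval (m : ℤ) + (((B + A * B) * N : ℕ) : ℤ))) =
          fun m : ℕ => (-c - (((B + A * B) * N : ℕ) : ℤ)) + (-P).eval (m : ℤ) := by
        funext m
        rw [eval_neg]
        ring
      rw [e]
      refine h2 N (by omega) _ ?_ x (by rw [natDegree_neg]; exact h.2.1) ?_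
      · have h3 := abs_le.1 h.1
        have h4 : (0 : ℤ) ≤ A * B * N := by positivity
        have h5 : (0 : ℤ) ≤ B * N := by positivity
        rw [abs_le]
        push_cast
        constructor <;> nlinarith
      · rw [natDegree_neg]
        exact h.2.2.trans (Nat.mul_le_mul_right _ (by nlinarith [Nat.zero_le (A * B)]))

end Pool.Agent.Results.MP_7a8f48_an.PolynomialTimes
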