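import Pool.Agent.Results.MP_7a8f48_an.PolynomialTimes
import Pool.Agent.Q56.TF.Near

/-!
# The Möbius function and the orbits of automorphisms of C*-algebras at all times near a real sequence

For every automorphism `α` of a C*-algebra (exact or not, of any entropy), every bounded functional `ρ` and every
element `u`, the sums of `μ(n) ρ(α^n v)`, `n ≤ M`, have any power of a logarithm of saving for the elements
`v = α ^ s u` at ALL the times `s` with `|s - r m| ≤ log ^ A N`, for almost all `m ≤ x`, where `r 1, ..., r x` is an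
arbitrary family of real numbers of nearly minimal energy; for instance the (real) values `β + κ f m` of a polynomial
`f` with integer coefficients, with arbitrary real `κ ≠ 0` and `β`, or of a generalised polynomial
`f t = ∑ w_y t ^ y` whose largest exponent is greater than `1` and not an integer (`f t = t ^ c`: the times of
Piatetski-Shapiro).

The result for families of integers is from `Pool.Agent.Results.MP_7a8f48_an.PolynomialTimes` (helper25).
-/

set_option autoImplicit false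

namespace Pool.Agent.Results.MP_7a8f48_an.TimesNearRealSequences

open Finset Polynomial

open Classical in
/-- The energy of order `p` of the family of real numbers `r 1, ..., r x`: the number of the pairs `v`, `w` of
`p`-tuples of elements of `{1, ..., x}` such that `r (v 1) + ... + r (v p)` and `r (w 1) + ... + r (w p)` differ
by at most `1`. -/
noncomputable def energy (p x : ℕ) (r : ℕ → ℝ) : ℕ :=
  (((Fintype.piFinset fun _ : Fin p => Icc 1 x) ×ˢ (Fintype.piFinset fun _ : Fin p => Icc 1 x)).filter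
    (fun q => |∑ i, r (q.1 i) - ∑ i, r (q.2 i)| ≤ 1)).card

/-- The integer power `α ^ k` of the automorphism `α`. -/
def pw {A : Type} [NonUnitalCStarAlgebra A] (α : A ≃⋆ₐ[ℂ] A) (k : ℤ) (u : A) : A :=
  if 0 ≤ k then (⇑α)^[k.toNat] u else (⇑α.symm)^[(-k).toNat] u

/-- The functional `ρ` and the element `v`: all the sums of `ρ (α ^ n v) μ(n)` over the `n ≤ M` in a residue class
modulo `q`, with `M ≤ B N` and `q ≤ log ^ T N`, are at most `N / log ^ U N`. -/
def Disjoint (B T U N : ℕ) {A : Type} [NonUnitalCStarAlgebra A] (α : A ≃⋆ₐ[ℂ] A) (ρ : A →L[ℂ] ℂ) (v : A) : Prop :=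
  ∀ q r : ℤ, 1 ≤ q → (q : ℝ) ≤ Real.log N ^ T → ∀ M : ℕ, M ≤ B * N →
    ‖∑ n ∈ (Icc 1 M).filter (fun n : ℕ => (n : ℤ) ≡ r [ZMOD q]),
      ρ ((⇑α)^[n] v) * (ArithmeticFunction.moebius n : ℂ)‖ ≤ N / Real.log N ^ U

open Classical in
/-- The times near the real numbers `r 1, ..., r x`, at the scale `N`: for every C*-algebra `𝔘` (unital or not, exact or
not), every automorphism `α` (of any entropy) and at most `log ^ T N` pairs of a bounded functional `ρ l` (for
instance a state) and an element `u l` with `‖ρ l‖ ‖u l‖ ≤ log ^ T N`: for all `m ≤ x`, with at most `x / log ^ U N`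
exceptions, ALL integers `s` (positive or negative) with `|s - r m| ≤ log ^ W N` are such that the elements
`α ^ s (u l)` have the property `Disjoint` for `ρ l`, for all `l`. -/
def Holds (W B T U N x : ℕ) (r : ℕ → ℝ) : Prop :=
  ∀ (𝔘 : Type) [NonUnitalCStarAlgebra 𝔘] (α : 𝔘 ≃⋆ₐ[ℂ] 𝔘) (D : ℕ), (D : ℝ) ≤ Real.log N ^ T →
    ∀ (ρ : Fin D → 𝔘 →L[ℂ] ℂ) (u : Fin D → 𝔘), (∀ l, ‖ρ l‖ * ‖u l‖ ≤ Real.log N ^ T) →
      (((Icc 1 x).filter (fun m => ∃ s : ℤ, |(s : ℝ) - r m| ≤ Real.log N ^ W ∧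
        ¬ ∀ l, Disjoint B T U N α (ρ l) (pw α s (u l)))).card : ℝ) ≤ x / Real.log N ^ U

/-- The sequence `f`, of growth `x ^ c`, has the property at all large scales: for all `x` with
`N / log ^ C N ≤ x ^ c ≤ B N` and all translates `β + f m`, `|β| ≤ B N`. -/
def Sequence (W B C T U : ℕ) (f : ℕ → ℝ) (c : ℝ) : Prop :=
  ∃ N₀ : ℕ, ∀ N : ℕ, N₀ ≤ N → ∀ x : ℕ, (x : ℝ) ^ c ≤ B * N → (N : ℝ) ≤ Real.log N ^ C * (x : ℝ) ^ c →
    ∀ β : ℝ, |β| ≤ B * N → Holds W B T U N x (fun m => β + f m)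

/-- the transfer -/
lemma holds_of (W p B B' C T U : ℕ) (hB : B ≤ B') : ∃ N₀ : ℕ, ∀ N : ℕ, N₀ ≤ N → ∀ (x : ℕ) (r : ℕ → ℝ),
    Pool.Agent.Q56.TF.Near W p B' C N x r → Holds W B T U N x r := by
  classical
  obtain ⟨n1, h1⟩ := (Pool.Agent.Results.MP_7a8f48_an.PolynomialTimes.result B' C T U).1 p
  refine ⟨n1, fun N hN x r hnear 𝔘 _ α D hD ρ u hu => ?_⟩
  obtain ⟨s, hs1, hs2, hs3⟩ := hnear (fun s => ¬ ∀ l, Disjoint B T U N α (ρ l) (pw α s (u l)))
  have h2 := h1 N hN x s ⟨hs1, hs2⟩ 𝔘 α D hD ρ u hu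
  refine le_trans (Nat.cast_le.2 (card_le_card ?_)) h2
  intro m hm
  rw [mem_filter] at hm ⊢
  refine ⟨hm.1, fun hc => hs3 m hm.2 fun l => ?_⟩
  intro q t hq hqT M hM
  exact hc l q t hq hqT M (hM.trans (Nat.mul_le_mul_right _ hB))

/-- Let `W`, `B`, `C`, `T` and `U` be fixed.

* For every `p` the following holds for all large `N`. Let `r 1, ..., r x` be an arbitrary family of real numbers in
  `[-B N, B N]` with an energy of order `p` of at most `log ^ C N` times `x ^ (2 p) / N` (the minimal possible order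
  of magnitude; the family may have as few as `N ^ (1 / p)` members). Then (`Holds`), for every C*-algebra, every
  automorphism `α` and at most `log ^ T N` pairs of a bounded functional `ρ` and an element `u`: for all `m ≤ x` with at
  most `x / log ^ U N` exceptions ALL integers `s` with `|s - r m| ≤ log ^ W N` satisfy
  `|∑ n ≤ M, n ≡ t mod q, μ(n) ρ(α ^ (n + s) u)| ≤ N / log ^ U N` for all pairs, all `q ≤ log ^ T N`, `t`, `M ≤ B N`.
* This holds for `r m = β + κ f m`, `m ≤ x`, where `f` is a fixed nonconstant polynomial with integer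
  coefficients, of degree `d`, `κ ≠ 0` is a fixed real number, `β` is any real number with `|β| ≤ B N`, and
  `N / log ^ C N ≤ x ^ d ≤ B N`.
* This holds for `r m = β + ∑ w_y m ^ y` (a sum over a finite set `F` of real exponents `y`), if the largest
  exponent `c` is greater than `1` and not an integer, `w_c ≠ 0`, `|β| ≤ B N` and `N / log ^ C N ≤ x ^ c ≤ B N`; for
  instance for `r m = β + m ^ c`. -/
theorem result (W B C T U : ℕ) :
    (∀ p : ℕ, ∃ N₀ : ℕ, ∀ N : ℕ, N₀ ≤ N → ∀ (x : ℕ) (r : ℕ → ℝ), (∀ m ∈ Icc 1 x, |r m| ≤ B * N) →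
      (energy p x r : ℝ) * N ≤ Real.log N ^ C * (x : ℝ) ^ (2 * p) → Holds W B T U N x r) ∧
    (∀ f : ℤ[X], 1 ≤ f.natDegree → ∀ κ : ℝ, κ ≠ 0 →
      Sequence W B C T U (fun m => κ * ((f.eval (m : ℤ) : ℤ) : ℝ)) f.natDegree) ∧
    (∀ (F : Finset ℝ) (w : ℝ → ℝ) (c : ℝ), c ∈ F → (∀ y ∈ F, y ≤ c) → w c ≠ 0 → 1 < c → (∀ k : ℕ, c ≠ k) →
      Sequence W B C T U (fun m => ∑ y ∈ F, w y * (m : ℝ) ^ y) c) := by
  have hseq : ∀ (g : ℕ → ℝ) (c : ℝ), Pool.Agent.Q56.TF.Base g c → 1 ≤ c → Sequence W B C T U g c := by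
    intro g c hg hc
    obtain ⟨p, B', C', n1, h1⟩ := Pool.Agent.Q56.TF.near_base hg hc W B C
    obtain ⟨n2, h2⟩ := holds_of W p B (B + B') C' T U (by omega)
    exact ⟨n1 + n2, fun N hN x hx1 hx2 β hβ => h2 N (by omega) x _
      ((h1 N (by omega) x hx1 hx2 β hβ).mono (by omega))⟩
  refine ⟨fun p => ?_, fun f hd κ hκ => ?_, fun F w c hcF hmax hac hc hcn => ?_⟩
  · obtain ⟨B', C', n1, h1⟩ := Pool.Agent.Q56.TF.near_gen p W B C
    obtain ⟨n2, h2⟩ := holds_of W p B (B + B') C' T U (by omega)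
    exact ⟨n1 + n2, fun N hN x r hr hE => h2 N (by omega) x r
      ((h1 N (by omega) x r hr hE).mono (by omega))⟩
  · exact hseq _ _ ((Pool.Agent.Q56.TF.base_poly f hd).dil hκ) (by exact_mod_cast hd)
  · exact hseq _ _ (Pool.Agent.Q56.TF.base_gp F w c hcF hmax hac hc hcn) hc.le

end Pool.Agent.Results.MP_7a8f48_an.TimesNearRealSequences
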