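import Pool.Agent.Y842.PH.Tri
import Pool.Agent.Y304.U.Avc
import Pool.Agent.Y304.U.Pw
import Pool.Agent.TH823.MRS.Fun
import Pool.Agent.Y842.EL.One
import Pool.Agent.Q158.CstA

/-!
# Norm Möbius disjointness for automorphisms of C*-algebras along one universal set of scales

For the automorphisms of C*-algebras whose orbits are approximated through matrix algebras of
sublinear size, or have null Arveson spectrum, the averages `(1/N) ∑_{n ≤ N} μ(n) αⁿ(x)` tend to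
zero in norm as `N → ∞` outside ONE set `E` of logarithmic density zero, which does not depend on the
algebra, the automorphism, the element and the twist.
-/

set_option autoImplicit false

open Finset Filter

namespace Pool.Agent.Results.MP_7a8f48_an.UniversalScales

universe v w

open Classical in
/-- `E` has logarithmic density zero -/
def LogDensityZero (E : Set ℕ) : Prop := Tendsto
  (fun X : ℕ => (∑ n ∈ Icc 1 X, if n ∈ E then (1 : ℝ) / n else 0) / Real.log X) atTop (nhds 0)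

/-- `e(t) = exp(2 π i t)` -/
noncomputable def e (t : ℝ) : ℂ := Complex.exp (2 * Real.pi * t * Complex.I)

/-- The two conclusions for the weight `u` and the vector `x`.
(1) `‖(1/N) ∑_{n ≤ N} u(n) e(θ n) Tⁿ x‖ → 0` as `N → ∞`, `N ∉ E`, uniformly in `θ`.
(2) The same in short intervals on average: for `H ≥ H₀(ε)` and all large `N ∉ E`,
`(1/N) ∑_{n ≤ N} ‖(1/H) ∑_{m ≤ H} u(n + m) e(θ m) Tᵐ x‖ ≤ ε` for all `θ`. -/
def NormDisjointOutside {X : Type w} [NormedAddCommGroup X] [NormedSpace ℂ X] (E : Set ℕ)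
    (u : ℕ → ℤ) (T : X → X) (x : X) : Prop :=
  (∀ ε : ℝ, 0 < ε → ∃ N₀ : ℕ, ∀ N : ℕ, N₀ ≤ N → N ∉ E → ∀ θ : ℝ,
    ‖∑ n ∈ Icc 1 N, ((u n : ℂ) * e (θ * n)) • (T^[n]) x‖ ≤ ε * N) ∧
  (∀ ε : ℝ, 0 < ε → ∃ H₀ : ℕ, ∀ H : ℕ, H₀ ≤ H → ∃ N₀ : ℕ, ∀ N : ℕ, N₀ ≤ N → N ∉ E → ∀ θ : ℝ,
    ∑ n ∈ Icc 1 N, ‖∑ m ∈ Icc 1 H, ((u (n + m) : ℂ) * e (θ * m)) • (T^[m]) x‖ ≤ ε * (H * N))

/-- The vector `x` is slow for `T`: for each `η > 0` there are `L ≥ 1` and vectors
`c 0, …, c (L - 1)` of a Hilbert space with `∑ ‖c h‖² ≤ (η L)²` such that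
`‖∑ v h Tʰ x‖ ≤ ‖∑ v h c h‖ + η L` for all coefficients with `|v h| ≤ 1`. -/
def Slow {X : Type w} [NormedAddCommGroup X] [NormedSpace ℂ X] (T : X → X) (x : X) : Prop :=
  ∀ η : ℝ, 0 < η → ∃ L : ℕ, 1 ≤ L ∧
    ∃ (F : Type) (_ : NormedAddCommGroup F) (_ : InnerProductSpace ℂ F) (c : ℕ → F),
      ∑ h ∈ range L, ‖c h‖ ^ 2 ≤ (η * L) ^ 2 ∧
      ∀ a : ℕ → ℂ, (∀ h, ‖a h‖ ≤ 1) →
        ‖∑ h ∈ range L, a h • (T^[h]) x‖ ≤ ‖∑ h ∈ range L, a h • c h‖ + η * L

/-- The normed space `F` is `M_k` with the operator norm, up to linear isometric isomorphism. -/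
def IsMatrixAlgebra (F : Type) [NormedAddCommGroup F] [NormedSpace ℂ F] (k : ℕ) : Prop :=
  Nonempty (F ≃ₗᵢ[ℂ] (EuclideanSpace ℂ (Fin k) →L[ℂ] EuclideanSpace ℂ (Fin k)))

/-- There are linear contractions `φ : X → F` and `ψ : F → Y`, where `F` is `M_k`, such that the mean
of `‖ψ (φ a) - π a‖` over the `a = Tʰ(x)`, `0 ≤ h < n`, is at most `δ`. (If
`rcp({x, T x, …, Tⁿ⁻¹ x}, δ) ≤ k` then this holds with completely positive maps.) -/
def Approx {X : Type w} [NormedAddCommGroup X] [NormedSpace ℂ X] {Y : Type v}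
    [NormedAddCommGroup Y] [NormedSpace ℂ Y] (π : X → Y) (T : X → X) (x : X)
    (n : ℕ) (δ : ℝ) (k : ℕ) : Prop :=
  ∃ (F : Type) (_ : NormedAddCommGroup F) (_ : NormedSpace ℂ F) (φ : X →ₗ[ℂ] F) (ψ : F →ₗ[ℂ] Y),
    IsMatrixAlgebra F k ∧ (∀ a, ‖φ a‖ ≤ ‖a‖) ∧ (∀ b, ‖ψ b‖ ≤ ‖b‖) ∧
    ∑ h ∈ range n, ‖ψ (φ ((T^[h]) x)) - π ((T^[h]) x)‖ ≤ δ * n

/-- The approximation rank of the orbit of `x` is sublinear: for each `ε > 0` there are `n ≥ 1` and
`k ≤ ε n` such that the `Tʰ(x)`, `0 ≤ h < n`, are approximated through `M_k` up to `ε`. This holds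
if `liminf (1/n) rcp({x, T x, …, Tⁿ⁻¹ x}, δ) = 0` for each `δ > 0`. -/
def Sublinear {X : Type w} [NormedAddCommGroup X] [NormedSpace ℂ X] {Y : Type v}
    [NormedAddCommGroup Y] [NormedSpace ℂ Y] (π : X → Y) (T : X → X) (x : X) : Prop :=
  ∀ ε : ℝ, 0 < ε → ∃ n : ℕ, 1 ≤ n ∧ ∃ k : ℕ, (k : ℝ) ≤ ε * n ∧ Approx π T x n ε k

/-- The element `x` has null Arveson spectrum for the automorphism `α`: for one closed set `K` of
measure zero in the circle `ℝ/ℤ`, `∑ g(n) αⁿ(x) = 0` for each absolutely summable `g : ℤ → ℂ` whose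
Fourier series `∑ g(n) exp (2 π i n η)` vanishes for all `η` in an open set which contains `K`. -/
def NullSpectrum {A : Type w} [NonUnitalCStarAlgebra A] (α : A ≃⋆ₐ[ℂ] A) (x : A) : Prop :=
  ∃ K : Set UnitAddCircle, IsClosed K ∧ MeasureTheory.volume K = 0 ∧
    ∀ g : ℤ → ℂ, Summable (fun n => ‖g n‖) →
      (∃ U : Set UnitAddCircle, IsOpen U ∧ K ⊆ U ∧ ∀ η ∈ U, ∑' n, g n * fourier n η = 0) →
      ∑' n : ℤ, g n • (α ^ n) x = 0

theorem pow_eq {A : Type w} [NonUnitalCStarAlgebra A] (α : A ≃⋆ₐ[ℂ] A) (n : ℕ) (x : A) :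
    (α ^ (n : ℤ)) x = (α^[n]) x := by
  rw [zpow_natCast]
  induction n with
  | zero => rfl
  | succ n ih =>
    rw [Function.iterate_succ_apply', ← ih, pow_succ']
    rfl

theorem norm_zpow {A : Type w} [NonUnitalCStarAlgebra A] (α : A ≃⋆ₐ[ℂ] A) (n : ℤ) (x : A) :
    ‖(α ^ n) x‖ ≤ ‖x‖ := NonUnitalStarAlgHom.norm_apply_le (α ^ n) x

/-- **Theorem.** There is one set `E` of logarithmic density zero such that the following holds for
`u = μ` and `u = λ`.
(A) Let `A` be a C*-algebra with a faithful *-homomorphism `π` to a C*-algebra `B` (for instance a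
faithful representation, `B = B(H)`), `α` an automorphism of `A`, and `D` a set of elements of `A`
each of which has sublinear approximation rank in `B` or null Arveson spectrum. Then each element of
the closed linear span of `D` (all elements of `A`, if this span is dense) is disjoint from `u` in
norm outside `E`.
(B) Let `T` be a linear contraction of a normed space. Then each vector in the closed linear span of
the slow vectors is disjoint from `u` in norm outside `E`. -/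
theorem result : ∃ E : Set ℕ, LogDensityZero E ∧ ∀ u : ℕ → ℤ,
    (u = (fun n => ArithmeticFunction.moebius n) ∨
      u = (fun n => (-1) ^ ArithmeticFunction.cardFactors n)) →
    (∀ (A : Type w) [NonUnitalCStarAlgebra A] (B : Type v) [NonUnitalCStarAlgebra B]
      (π : A →⋆ₙₐ[ℂ] B) (α : A ≃⋆ₐ[ℂ] A), Function.Injective π →
      ∀ D : Set A, (∀ x ∈ D, Sublinear π α x ∨ NullSpectrum α x) →
      ∀ x ∈ (Submodule.span ℂ D).topologicalClosure, NormDisjointOutside E u α x) ∧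
    (∀ (X : Type w) [NormedAddCommGroup X] [NormedSpace ℂ X] (T : X →L[ℂ] X), ‖T‖ ≤ 1 →
      ∀ x ∈ (Submodule.span ℂ {y : X | Slow T y}).topologicalClosure,
        NormDisjointOutside E u T x) := by
  obtain ⟨E₁, hE₁, h1⟩ := Pool.Agent.Y842.PH.one_E (Pool.Agent.Y304.U.avc Pool.Agent.Y304.U.pw)
    Pool.Agent.TH823.MRS.mob Pool.Agent.TH823.MRS.mob_bdd Pool.Agent.TH823.MRS.mob_flip
    Pool.Agent.TH823.MRS.expo_mob
  obtain ⟨E₂, hE₂, h2⟩ := Pool.Agent.Y842.PH.one_E (Pool.Agent.Y304.U.avc Pool.Agent.Y304.U.pw)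
    Pool.Agent.H376R2.MR.lam Pool.Agent.Y842.EL.abs_lam Pool.Agent.TH823.MRS.lam_flip
    Pool.Agent.TH823.MRS.expo_lam
  refine ⟨E₁ ∪ E₂, Pool.Agent.Y842.EL.LZ_union hE₁ hE₂, ?_⟩
  have conv : ∀ (g : ℕ → ℤ) (h N : ℕ) (ε : ℝ), ‖Pool.Agent.Y842.PH.Cr g h N 0‖ ≤ ε →
      |∑ k ∈ range N, ((g k * g (k + h) : ℤ) : ℝ)| ≤ ε := by
    intro g h N ε hh
    refine le_trans (le_of_eq ?_) hh
    unfold Pool.Agent.Y842.PH.Cr
    have e1 : ∑ k ∈ range N, ((g k : ℂ) * g (k + h)) * Pool.Agent.Helper602.MK.ee (0 * k) =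
        ((∑ k ∈ range N, ((g k * g (k + h) : ℤ) : ℝ) : ℝ) : ℂ) := by
      push_cast
      refine Finset.sum_congr rfl fun k _ => ?_
      rw [zero_mul]
      unfold Pool.Agent.Helper602.MK.ee
      simp
    rw [e1, Complex.norm_real, Real.norm_eq_abs]
  intro u hu
  have hu1 : ∀ n, |u n| ≤ 1 := by
    rcases hu with rfl | rfl
    · exact Pool.Agent.TH823.MRS.mob_bdd
    · exact Pool.Agent.Y842.EL.abs_lam
  have hSm : Pool.Agent.Q158.Lin.Sm u (E₁ ∪ E₂) := by
    rcases hu with rfl | rfl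
    · intro h hh ε hε
      obtain ⟨N₀, h3⟩ := h1 h hh ε hε
      exact ⟨N₀, fun N hN hNE => conv _ h N _ (h3 N hN (fun h4 => hNE (Or.inl h4)) 0)⟩
    · intro h hh ε hε
      obtain ⟨N₀, h3⟩ := h2 h hh ε hε
      exact ⟨N₀, fun N hN hNE => conv _ h N _ (h3 N hN (fun h4 => hNE (Or.inr h4)) 0)⟩
  refine ⟨?_, ?_⟩
  · intro A _ B _ π α hπ D hD x hx
    set T : A →L[ℂ] A := LinearMap.mkContinuous
      ({ toFun := α, map_add' := map_add α, map_smul' := map_smul α } : A →ₗ[ℂ] A) 1 (fun a => by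
        rw [one_mul]
        exact NonUnitalStarAlgHom.norm_apply_le α a) with hTd
    have hT : ‖T‖ ≤ 1 := LinearMap.mkContinuous_norm_le _ zero_le_one _
    set p : A →L[ℂ] B := LinearMap.mkContinuous
      ({ toFun := π, map_add' := map_add π, map_smul' := map_smul π } : A →ₗ[ℂ] B) 1 (fun a => by
        rw [one_mul]
        exact NonUnitalStarAlgHom.norm_apply_le π a) with hpd
    have hp : ∀ a, ‖p a‖ = ‖a‖ := fun a => NonUnitalStarAlgHom.norm_map π hπ a
    have h3 := Pool.Agent.Q158.Cst.dis_all hu1 hSm T hT D (fun y hy => ?_) x hx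
    · exact h3
    rcases hD y hy with hs | ⟨K, hK, hK0, hs⟩
    · refine Pool.Agent.Y326.slow_of_rank T hT p hp y fun ε hε => ?_
      obtain ⟨n, hn, k, hk, F, iF, iF', φ, ψ, ⟨e⟩, hφ, hψ, happ⟩ := hs ε hε
      refine ⟨n, hn, k, hk,
        LinearMap.mkContinuous ((e.toLinearEquiv : F →ₗ[ℂ] _).comp φ) 1 (fun a => ?_),
        LinearMap.mkContinuous (ψ.comp (e.symm.toLinearEquiv : _ →ₗ[ℂ] F)) 1 (fun b => ?_),
        LinearMap.mkContinuous_norm_le _ zero_le_one _,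
        LinearMap.mkContinuous_norm_le _ zero_le_one _, ?_⟩
      · rw [one_mul]
        exact (e.norm_map (φ a)).le.trans (hφ a)
      · rw [one_mul]
        exact (hψ _).trans (e.symm.norm_map b).le
      · refine le_trans (le_of_eq ?_) happ
        refine sum_congr rfl fun h _ => ?_
        show ‖ψ (e.symm (e (φ ((α^[h]) y)))) - π ((α^[h]) y)‖ = _
        rw [LinearIsometryEquiv.symm_apply_apply]
    · exact Pool.Agent.Q158.Cst.slow_null (fun n => (T^[n]) y) (fun n : ℤ => (α ^ n) y) ‖y‖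
        (fun n => norm_zpow α n y) (fun n => pow_eq α n y) K hK hK0 hs
  · intro X _ _ T hT x hx
    exact Pool.Agent.Q158.Cst.dis_all hu1 hSm T hT {y | Slow T y} (fun y hy => hy) x hx

end Pool.Agent.Results.MP_7a8f48_an.UniversalScales
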